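import Pool.Agent.H44.DU.Basic2

/-!
GE (MP_81a758_an): from the leaf coordinates to the surface.
-/

set_option autoImplicit false

namespace Pool.Agent.H44.DU

namespace H70GE

variable {n : ℕ} (S : Surf n)

/-- The exits of the steps. -/
theorem exists_exit (h1 : T_ST) (t : ℝ) (hG : S.Gd t) :
    ∃ E : (Side n × ℂ) → (Side n × ℂ) → Side n × ℝ, ∀ (c : ℝ) (p q : Side n × ℂ),
      S.Step ((t : ℂ) + Complex.I) c p q →
      S.InJ t (E p q).1 (E p q).2 ∧ (E p q).1.1 = p.1.1 ∧ q = S.th t (E p q) ∧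
        c = S.a (E p q).1 ∧ (E p q).2 = xi t p.2 ∧ xi t q.2 = S.mv t (E p q).1 (E p q).2 := by
  have key := (h1 n S t hG).2
  have h : ∀ p q : Side n × ℂ, ∃ e : Side n × ℝ, ∀ c, S.Step ((t : ℂ) + Complex.I) c p q →
      S.InJ t e.1 e.2 ∧ e.1.1 = p.1.1 ∧ q = S.th t e ∧
        c = S.a e.1 ∧ e.2 = xi t p.2 ∧ xi t q.2 = S.mv t e.1 e.2 := by
    intro p q
    by_cases hex : ∃ c, S.Step ((t : ℂ) + Complex.I) c p q
    · obtain ⟨c, hc⟩ := hex
      obtain ⟨r, hr1, hr2, hr3, hr4, -, hr6⟩ := key c p q hc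
      refine ⟨(r, xi t p.2), fun c' hc' => ⟨hr1, hr2, hr3, ?_, rfl, hr6⟩⟩
      obtain ⟨r', hs1, hs2, -, hs4, -, -⟩ := key c' p q hc'
      have : r' = r := S.exit_unique (hs2.trans hr2.symm) hs1 hr1
      rw [hs4, this]
    · exact ⟨(p.1, 0), fun c hc => absurd ⟨c, hc⟩ hex⟩
  choose E hE using h
  exact ⟨E, fun c p q hc => hE p q c hc⟩

/-- The point of the surface depends on the coordinate in a Lipschitz way. -/
theorem th_near (t : ℝ) (q : Side n × ℝ) : ∃ K > (0 : ℝ), ∀ y : Side n × ℝ, y.1 = q.1 →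
    (S.th t y).1 = (S.th t q).1 ∧ ‖(S.th t y).2 - (S.th t q).2‖ ≤ K * |y.2 - q.2| := by
  set s := S.gl q.1 with hs
  refine ⟨S.a q.1 * (‖S.Q s - S.P s‖ / |xi t (S.P s) - xi t (S.Q s)|) + 1, ?_, ?_⟩
  · have := S.a_pos q.1
    positivity
  · rintro ⟨r, u⟩ hr
    simp only at hr
    subst hr
    refine ⟨rfl, ?_⟩
    have h1 : (S.th t (q.1, u)).2 - (S.th t q).2 =
        (((S.a q.1 * (q.2 - u)) / (xi t (S.P s) - xi t (S.Q s)) : ℝ) : ℂ) *
          (S.Q s - S.P s) := by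
      simp only [Surf.th, Surf.pt, ← hs]
      have h2 : S.lam t s (S.mv t q.1 u) = S.lam t s (S.mv t q.1 q.2) +
          (S.a q.1 * (q.2 - u)) / (xi t (S.P s) - xi t (S.Q s)) := by
        simp only [Surf.lam, Surf.mv]
        rw [← add_div]
        congr 1
        ring
      rw [h2]
      push_cast
      ring
    rw [h1, norm_mul, Complex.norm_real, Real.norm_eq_abs, abs_div, abs_mul,
      abs_of_pos (S.a_pos q.1), abs_sub_comm q.2 u]
    have h3 : 0 ≤ |u - q.2| := abs_nonneg _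
    have h4 : S.a q.1 * |u - q.2| / |xi t (S.P s) - xi t (S.Q s)| * ‖S.Q s - S.P s‖ =
        S.a q.1 * (‖S.Q s - S.P s‖ / |xi t (S.P s) - xi t (S.Q s)|) * |u - q.2| := by
      ring
    rw [h4, add_mul]
    linarith

/-- Periodic states give points of closed leaves. -/
theorem th_per (h1 : T_ST) (t : ℝ) (hG : S.Gd t) (p : Side n × ℝ) (hp : p ∈ S.TPer t) :
    S.th t p ∈ S.Per ((t : ℂ) + Complex.I) := by
  obtain ⟨m, y, ⟨hm, hy, hy0⟩, rfl⟩ := hp
  refine ⟨m, fun k => S.th t (y k), fun k => S.a (y (k + 1)).1, ⟨hm, fun k hk => ?_, ?_⟩, rfl⟩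
  · exact (h1 n S t hG).1 _ _ (hy k hk)
  · simp only [hy0]

/-- Accumulation on the surface from accumulation of the coordinates. -/
theorem acc (h1 : T_ST) (t : ℝ) (hG : S.Gd t) (x : ℕ → Side n × ℂ) (y : ℕ → Side n × ℝ)
    (j : ℕ) (hxy : ∀ k, x (k + j) = S.th t (y k)) (h : S.TAcc t y) :
    S.AccPer ((t : ℂ) + Complex.I) x := by
  obtain ⟨q, hq, hacc⟩ := h
  obtain ⟨K, hK, hnear⟩ := th_near S t q
  refine ⟨S.th t q, th_per S h1 t hG q hq, fun ε hε N => ?_⟩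
  obtain ⟨k, hk, hk1, hk2⟩ := hacc (ε / K) (div_pos hε hK) N
  obtain ⟨a1, a2⟩ := hnear (y k) hk1
  refine ⟨k + j, by omega, ?_, ?_⟩
  · rw [hxy, a1]
  · rw [hxy]
    refine lt_of_le_of_lt a2 ?_
    rw [lt_div_iff₀ hK] at hk2
    linarith

/-- A closed leaf, continued periodically. -/
theorem cyc_periodic (d : ℂ) (m : ℕ) (x : ℕ → Side n × ℂ) (c : ℕ → ℝ) (h : S.Cyc d m x c) :
    ∀ k, S.Step d (c (k % m)) (x (k % m)) (x ((k + 1) % m)) := by
  obtain ⟨h1, h2, h3⟩ := h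
  intro k
  have h4 := h2 (k % m) (Nat.mod_lt _ h1)
  rcases Nat.lt_or_ge (k % m + 1) m with h5 | h5
  · have : (k + 1) % m = k % m + 1 := by
      rw [Nat.add_mod]
      rcases Nat.lt_or_ge 1 m with h6 | h6
      · rw [Nat.mod_eq_of_lt h6, Nat.mod_eq_of_lt h5]
      · omega
    rw [this]; exact h4
  · have h6 : k % m + 1 = m := by
      have := Nat.mod_lt k h1
      omega
    have : (k + 1) % m = 0 := by
      rw [← Nat.mod_add_mod, h6, Nat.mod_self]
    rw [this, ← h3]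
    rw [h6] at h4
    exact h4

end H70GE

open H70GE in
/-- From the leaf coordinates to the surface. -/
theorem pf_GE (h1 : T_ST) : T_GE := by
  intro n S t hG hT
  obtain ⟨E, hE⟩ := exists_exit S h1 t hG
  have htr : ∀ (c c' : ℝ) (p q q' : Side n × ℂ), S.Step ((t : ℂ) + Complex.I) c p q →
      S.Step ((t : ℂ) + Complex.I) c' q q' → S.Tr t (E p q) (E q q') := by
    intro c c' p q q' h h'
    obtain ⟨a1, a2, a3, a4, a5, a6⟩ := hE c p q h
    obtain ⟨b1, b2, b3, b4, b5, b6⟩ := hE c' q q' h'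
    refine ⟨a1, b1, ?_, ?_⟩
    · rw [b2]
      conv_rhs => rw [a3]
      rfl
    · rw [b5, a6]
  have hcyc : ∀ m x c, S.Cyc ((t : ℂ) + Complex.I) m x c →
      ∃ Y : ℕ → Side n × ℝ, (∀ k, S.Tr t (Y k) (Y (k + 1))) ∧ (∀ k, Y (k + m) = Y k) ∧
        (∀ k, x ((k + 1) % m) = S.th t (Y k)) ∧ ∀ k, c (k % m) = S.a (Y k).1 := by
    intro m x c hc
    have hst := cyc_periodic S _ m x c hc
    refine ⟨fun k => E (x (k % m)) (x ((k + 1) % m)), fun k => ?_, fun k => ?_, fun k => ?_,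
      fun k => ?_⟩
    · exact htr _ _ _ _ _ (hst k) (hst (k + 1))
    · show E (x ((k + m) % m)) (x ((k + m + 1) % m)) = E (x (k % m)) (x ((k + 1) % m))
      rw [Nat.add_mod_right, show k + m + 1 = k + 1 + m by ring, Nat.add_mod_right]
    · exact (hE _ _ _ (hst k)).2.2.1
    · exact (hE _ _ _ (hst k)).2.2.2.1
  have hsub : S.Per ((t : ℂ) + Complex.I) ⊆ S.th t '' S.TPer t := by
    rintro p ⟨m, x, c, hc, rfl⟩
    obtain ⟨Y, y1, y2, y3, -⟩ := hcyc m x c hc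
    have hm : 0 < m := hc.1
    refine ⟨Y (m - 1), S.chain_tper y1 hm y2 _, ?_⟩
    rw [← y3, show m - 1 + 1 = m by omega, Nat.mod_self]
  refine ⟨(hT.fin.image _).subset hsub, ?_, ?_, ?_, ?_⟩
  · obtain ⟨p, hp⟩ := hT.ne
    exact ⟨_, th_per S h1 t hG p hp⟩
  · intro m x c hc
    obtain ⟨Y, y1, y2, -, y4⟩ := hcyc m x c hc
    have h := hT.hyp m Y ⟨hc.1, fun k _ => y1 k, by simpa using y2 0⟩
    have : ∏ k ∈ Finset.range m, c k = ∏ k ∈ Finset.range m, S.a (Y k).1 := by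
      apply Finset.prod_congr rfl
      intro k hk
      rw [← y4, Nat.mod_eq_of_lt (Finset.mem_range.1 hk)]
    rw [this]
    exact h
  · intro x hx
    choose c hc using hx
    refine acc S h1 t hG x (fun k => E (x k) (x (k + 1))) 1 (fun k => ?_) ?_
    · exact (hE _ _ _ (hc k)).2.2.1
    · exact hT.fwd _ fun k => htr _ _ _ _ _ (hc k) (hc (k + 1))
  · intro x hx
    choose c hc using hx
    refine acc S h1 t hG x (fun k => E (x (k + 1)) (x k)) 0 (fun k => ?_) ?_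
    · exact (hE _ _ _ (hc k)).2.2.1
    · exact hT.bwd _ fun k => htr _ _ _ _ _ (hc (k + 1)) (hc k)

end Pool.Agent.H44.DU
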