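import Pool.Agent.H44.DU.Targets2

/-!
INF (MP_81a758_an): there is an infinite leaf.
-/

set_option autoImplicit false

namespace Pool.Agent.H44.DU

namespace H70INF

variable {n : ℕ} (S : Surf n)

theorem dev_nil (c : Side n) : S.dev [] c = S.P c := by
  simp [Surf.dev, Surf.A, Surf.B]

/-- In a good direction no side is parallel to the leaves. -/
theorem xi_ne (t : ℝ) (hG : S.Gd t) (s : Side n) : xi t (S.P s) ≠ xi t (S.Q s) := by
  intro h
  have h1 := hG [] [] s (nx s) (by rw [dev_nil, dev_nil, S.P_nx]; exact h)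
  rw [dev_nil, dev_nil, S.P_nx] at h1
  refine S.P_ne_Q s (Complex.ext ?_ h1)
  simp only [xi] at h
  rw [h1] at h
  linarith

/-- Every triangle has a side through which leaves go out. -/
theorem exists_out (t : ℝ) (hG : S.Gd t) (s : Side n) :
    ∃ r : Side n, xi t (S.Q r) < xi t (S.P r) := by
  by_contra hc
  push Not at hc
  have h1 := hc s
  have h2 := hc (nx s)
  have h3 := hc (nx (nx s))
  rw [S.P_nx, S.Q_nx] at h2
  rw [S.P_nx_nx, S.Q_nx_nx] at h3
  exact xi_ne S t hG s (by linarith)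

/-- The leaves which run into a corner. -/
def Z (t : ℝ) : Set ℝ :=
  ⋃ p : List (Side n) × Side n, {x | S.g t (p.1 ++ [p.2]) x = xi t (S.O (S.gl p.2))}

theorem Z_countable (t : ℝ) : (Z S t).Countable := by
  refine Set.countable_iUnion fun p => Set.Subsingleton.countable ?_
  intro x hx y hy
  have hx' : S.g t (p.1 ++ [p.2]) x = xi t (S.O (S.gl p.2)) := hx
  have hy' : S.g t (p.1 ++ [p.2]) y = xi t (S.O (S.gl p.2)) := hy
  have h : S.g t (p.1 ++ [p.2]) x = S.g t (p.1 ++ [p.2]) y := hx'.trans hy'.symm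
  exact le_antisymm ((S.g_le_iff t _).1 h.le) ((S.g_le_iff t _).1 h.ge)

open Classical in
/-- The next state. -/
noncomputable def next (t : ℝ) (p : Side n × ℝ) : Side n × ℝ :=
  (if xi t (S.O (S.gl p.1)) < S.mv t p.1 p.2 then nx (S.gl p.1) else nx (nx (S.gl p.1)),
    S.mv t p.1 p.2)

theorem next_tr (t : ℝ) (p : Side n × ℝ) (h : S.InJ t p.1 p.2)
    (hne : S.mv t p.1 p.2 ≠ xi t (S.O (S.gl p.1))) : S.Tr t p (next S t p) := by
  have hI := (S.inI_gl_iff t p.1 p.2).2 h
  unfold next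
  split_ifs with hlt
  · exact ⟨h, S.exit_right hI hlt, rfl, rfl⟩
  · exact ⟨h, S.exit_left hI (lt_of_le_of_ne (not_lt.1 hlt) hne), rfl, rfl⟩

end H70INF

open H70INF in
/-- There is an infinite leaf. -/
theorem pf_INF : T_INF := by
  intro n S t hn hG
  obtain ⟨r0, hr0⟩ := exists_out S t hG (⟨0, hn⟩, 0)
  obtain ⟨x, hxZ, hx1, hx2⟩ := ((Z_countable S t).dense_compl ℝ).exists_between hr0
  have hZ : ∀ (w : List (Side n)) (l : Side n), S.g t (w ++ [l]) x ≠ xi t (S.O (S.gl l)) := by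
    intro w l h
    exact hxZ (Set.mem_iUnion.2 ⟨(w, l), h⟩)
  set y : ℕ → Side n × ℝ := fun k => (next S t)^[k] (r0, x) with hy
  have hsucc : ∀ k, y (k + 1) = next S t (y k) := fun k =>
    Function.iterate_succ_apply' (next S t) k (r0, x)
  have hinv : ∀ k, S.InJ t (y k).1 (y k).2 ∧
      ∃ w, S.g t (w ++ [(y k).1]) x = S.mv t (y k).1 (y k).2 := by
    intro k
    induction k with
    | zero => exact ⟨⟨hx1, hx2⟩, [], by rw [List.nil_append, S.g_single]; rfl⟩
    | succ k ih =>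
      obtain ⟨ih1, w, hw⟩ := ih
      have htr := next_tr S t (y k) ih1 (by rw [← hw]; exact hZ w _)
      rw [← hsucc k] at htr
      refine ⟨htr.2.1, w ++ [(y k).1], ?_⟩
      rw [S.g_append, S.g_single, hw, htr.2.2.2]
  refine ⟨y, fun k => ?_⟩
  obtain ⟨h1, w, hw⟩ := hinv k
  rw [hsucc]
  exact next_tr S t (y k) h1 (by rw [← hw]; exact hZ w _)

end Pool.Agent.H44.DU
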